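import Pool.Agent.Y288.TY.Dup
import Pool.Agent.W677.MarB

/-! The logarithm of the derivative of the exterior map is a Bloch function. -/

set_option autoImplicit false

open Complex Filter Topology Metric Set MeasureTheory

namespace Pool.Agent.Y288.TY

open Pool.Agent.H712R2 Pool.Agent.H713R2 Pool.Agent.W677.Mar Pool.Agent.Y272.TY

/-- holomorphic logarithm on the unit disc -/
theorem exists_log' {φ : ℂ → ℂ} (hφ : DifferentiableOn ℂ φ (ball 0 1))
    (h0 : ∀ z ∈ ball (0 : ℂ) 1, φ z ≠ 0) :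
    ∃ L : ℂ → ℂ, (∀ z ∈ ball (0 : ℂ) 1, HasDerivAt L (deriv φ z / φ z) z) ∧
      L 0 = log (φ 0) ∧ ∀ z ∈ ball (0 : ℂ) 1, exp (L z) = φ z := by
  have hd : DifferentiableOn ℂ (fun z => deriv φ z / φ z) (ball 0 1) :=
    (hφ.deriv isOpen_ball).div hφ h0
  obtain ⟨L, hL0, hL⟩ := (hd.isExactOn_ball).with_val_at 0 (log (φ 0))
  refine ⟨L, hL, hL0, ?_⟩
  have h1 : ∀ z ∈ ball (0 : ℂ) 1, HasDerivAt (fun z => φ z * exp (-L z)) 0 z := by
    intro z hz
    have h2 : HasDerivAt φ (deriv φ z) z :=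
      (hφ.differentiableAt (isOpen_ball.mem_nhds hz)).hasDerivAt
    have h3 := h2.mul ((hL z hz).neg.cexp)
    refine h3.congr_deriv ?_
    have := h0 z hz
    field_simp
    ring
  intro z hz
  have h4 : (fun z => φ z * exp (-L z)) z = (fun z => φ z * exp (-L z)) 0 := by
    refine isOpen_ball.is_const_of_deriv_eq_zero (convex_ball (0 : ℂ) 1).isPreconnected
      (fun y hy => (h1 y hy).differentiableAt.differentiableWithinAt) (fun y hy => (h1 y hy).deriv)
      hz (mem_ball_self one_pos)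
  simp only at h4
  rw [hL0, exp_neg, exp_neg, exp_log (h0 0 (mem_ball_self one_pos)),
    mul_inv_cancel₀ (h0 0 (mem_ball_self one_pos))] at h4
  have h5 := exp_ne_zero (L z)
  field_simp at h4
  exact h4.symm

/-- the derivative of the exterior map in disc coordinates -/
lemma cc_deriv {d : ℕ} {β : ℂ → ℂ} (hβ : IsBeta d β) {w : ℂ} (hw : w ∈ ball (0 : ℂ) 1)
    (hw0 : w ≠ 0) : HasDerivAt (cc β) (-(β w - w * deriv β w) / w ^ 2) w := by
  have h1 : HasDerivAt β (deriv β w) w :=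
    (hβ.diff.differentiableAt (isOpen_ball.mem_nhds hw)).hasDerivAt
  have h2 := (hasDerivAt_inv hw0).mul h1
  refine h2.congr_deriv ?_
  field_simp
  ring

lemma exists_Sg {d : ℕ} {β : ℂ → ℂ} (hβ : IsBeta d β) : ∃ H, Sg β H := by
  have hdiff : DifferentiableOn ℂ (fun w => β w - w * deriv β w) (ball 0 1) :=
    hβ.diff.sub (differentiableOn_id.mul (hβ.diff.deriv isOpen_ball))
  have hne : ∀ w ∈ ball (0 : ℂ) 1, β w - w * deriv β w ≠ 0 := by
    intro w hw
    by_cases hw0 : w = 0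
    · rw [hw0, zero_mul, sub_zero, hβ.zero]
      exact one_ne_zero
    · have hDo : IsOpen (ball (0 : ℂ) 1 \ {0}) := isOpen_ball.sdiff isClosed_singleton
      have h1 : DifferentiableOn ℂ (cc β) (ball (0 : ℂ) 1 \ {0}) := fun x hx =>
        (cc_deriv hβ hx.1 hx.2).differentiableAt.differentiableWithinAt
      have h2 : InjOn (cc β) (ball (0 : ℂ) 1 \ {0}) := fun x hx y hy h =>
        hβ.inj x hx.1 y hy.1 hx.2 hy.2 h
      have h3 := Pool.Agent.Helper202.Univ.deriv_ne_zero hDo h1 h2 (z := w) ⟨hw, hw0⟩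
      rw [(cc_deriv hβ hw hw0).deriv] at h3
      intro h0
      rw [h0] at h3
      simp at h3
  obtain ⟨H, hH, hH0, hexp⟩ := exists_log' hdiff hne
  refine ⟨H, ⟨⟨hβ.diff, hβ.zero, ?_⟩, fun z hz => (hH z hz).differentiableAt.differentiableWithinAt,
    ?_, hexp⟩⟩
  · intro x hx y hy h
    refine hβ.inj x hx.1 y hy.1 hx.2 hy.2 ?_
    simp only at h
    rw [div_eq_inv_mul, div_eq_inv_mul] at h
    exact h
  · rw [hH0, zero_mul, sub_zero, hβ.zero, log_one]

/-- Bloch functions along radii -/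
lemma bloch_radius {H : ℂ → ℂ} (hH : DifferentiableOn ℂ H (ball 0 1))
    (hb : ∀ w ∈ ball (0 : ℂ) 1, ‖deriv H w‖ * (1 - ‖w‖) ≤ 6) {θ ρ ρ' : ℝ} (h0 : 0 ≤ ρ)
    (h1 : ρ ≤ ρ') (h2 : ρ' < 1) :
    ‖H (pt ρ' θ) - H (pt ρ θ)‖ ≤ 6 * Real.log ((1 - ρ) / (1 - ρ')) := by
  have hmem : ∀ t : ℝ, 0 ≤ t → t < 1 → pt t θ ∈ ball (0 : ℂ) 1 := by
    intro t ht0 ht1
    rw [mem_ball_zero_iff, norm_pt t θ ht0]
    exact ht1
  have hder : ∀ t : ℝ, 0 ≤ t → t < 1 →
      HasDerivAt (fun t : ℝ => H (pt t θ) - H (pt ρ θ)) (deriv H (pt t θ) * pt 1 θ) t := by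
    intro t ht0 ht1
    have h3 : HasDerivAt H (deriv H (pt t θ)) (pt t θ) :=
      (hH.differentiableAt (isOpen_ball.mem_nhds (hmem t ht0 ht1))).hasDerivAt
    have h4 : HasDerivAt (fun t : ℝ => pt t θ) (pt 1 θ) t := by
      have h5 : (fun t : ℝ => pt t θ) = fun t : ℝ => (t : ℂ) * pt 1 θ := by
        funext t
        exact pt_eq t θ
      rw [h5]
      have h6 := (Complex.ofRealCLM.hasDerivAt (x := t)).mul_const (pt 1 θ)
      simpa using h6
    exact (h3.comp t h4).sub_const _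
  have hB : ∀ t : ℝ, t < 1 → HasDerivAt (fun t : ℝ => 6 * (Real.log (1 - ρ) - Real.log (1 - t)))
      (6 / (1 - t)) t := by
    intro t ht
    have h3 : HasDerivAt (fun t : ℝ => 1 - t) (-1) t := by
      simpa using (hasDerivAt_id t).const_sub 1
    have h4 := (((h3.log (by linarith)).const_sub (Real.log (1 - ρ))).const_mul 6)
    refine h4.congr_deriv ?_
    have : (1 - t) ≠ 0 := by linarith
    field_simp
  have h3 := image_norm_le_of_norm_deriv_right_le_deriv_boundary' (a := ρ) (b := ρ')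
    (f := fun t : ℝ => H (pt t θ) - H (pt ρ θ)) (f' := fun t => deriv H (pt t θ) * pt 1 θ)
    (B := fun t : ℝ => 6 * (Real.log (1 - ρ) - Real.log (1 - t))) (B' := fun t => 6 / (1 - t))
    (fun t ht => (hder t (h0.trans ht.1) (lt_of_le_of_lt ht.2 h2)).continuousAt.continuousWithinAt)
    (fun t ht => (hder t (h0.trans ht.1) (ht.2.trans h2)).hasDerivWithinAt)
    (by simp)
    (fun t ht => (hB t (lt_of_le_of_lt ht.2 h2)).continuousAt.continuousWithinAt)
    (fun t ht => (hB t (ht.2.trans h2)).hasDerivWithinAt)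
    (by
      intro t ht
      have ht1 : t < 1 := ht.2.trans h2
      have ht0 : 0 ≤ t := h0.trans ht.1
      rw [norm_mul, norm_pt 1 θ zero_le_one, mul_one, le_div_iff₀ (by linarith)]
      have h4 := hb _ (hmem t ht0 ht1)
      rwa [norm_pt t θ ht0] at h4)
    (x := ρ') ⟨h1, le_rfl⟩
  rw [Real.log_div (by linarith) (by linarith)]
  exact h3

theorem t_BLip : St_BLip := by
  intro d β hd hβ θ ρ ρ' h0 h1 h2
  obtain ⟨H, S⟩ := exists_Sg hβ
  have hrl : rl d 0 = Real.exp (-4) := by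
    unfold rl
    norm_num
  have hρ0 : 0 < ρ := lt_of_lt_of_le (rl_pos d 0) h0
  have hlog : ∀ t : ℝ, 0 < t → t < 1 →
      Real.log ‖deriv (cc β) (pt t θ)‖ = (H (pt t θ)).re - 2 * Real.log t := by
    intro t ht0 ht1
    have hm : pt t θ ∈ ball (0 : ℂ) 1 := by
      rw [mem_ball_zero_iff, norm_pt t θ ht0.le]
      exact ht1
    have hp0 : pt t θ ≠ 0 := by
      rw [← norm_pos_iff, norm_pt t θ ht0.le]
      exact ht0
    rw [(cc_deriv hβ hm hp0).deriv, ← S.eq _ hm, norm_div, norm_neg, norm_pow, norm_pt t θ ht0.le,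
      Complex.norm_exp, Real.log_div (Real.exp_ne_zero _) (by positivity), Real.log_exp,
      Real.log_pow]
    norm_num
  rw [hlog ρ' (lt_of_lt_of_le hρ0 h1) h2, hlog ρ hρ0 (lt_of_le_of_lt h1 h2)]
  have h3 := bloch_radius S.dH (fun w hw => H_bloch S hw) (θ := θ) hρ0.le h1 h2
  have h4 : |(H (pt ρ' θ)).re - (H (pt ρ θ)).re| ≤ ‖H (pt ρ' θ) - H (pt ρ θ)‖ := by
    rw [← Complex.sub_re]
    exact Complex.abs_re_le_norm _
  have h5 : Real.log ρ ≤ Real.log ρ' := Real.log_le_log hρ0 h1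
  have h6 : Real.log ρ' ≤ 0 := Real.log_nonpos (by linarith) h2.le
  have h7 : -4 ≤ Real.log ρ := by
    rw [← Real.log_exp (-4)]
    apply Real.log_le_log (Real.exp_pos _)
    rw [← hrl]
    exact h0
  rw [abs_le] at h4 ⊢
  constructor <;> linarith [h4.1, h4.2]

end Pool.Agent.Y288.TY
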