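import Mathlib

/-! The maximal inequality of Rademacher and Menshov (dyadic chaining). -/

set_option autoImplicit false

open Filter Topology Set MeasureTheory

namespace Pool.Agent.Y288.TY

/-- sums over blocks -/
def Sb (x : ℕ → ℝ) (a n : ℕ) : ℝ := ∑ i ∈ Finset.Ico a (a + n), x i

/-- sums of squares over the dyadic blocks -/
def Qb (x : ℕ → ℝ) : ℕ → ℕ → ℝ
  | 0, a => Sb x a 1 ^ 2
  | r + 1, a => Sb x a (2 ^ (r + 1)) ^ 2 + (Qb x r a + Qb x r (a + 2 ^ r))

lemma Qb_nonneg (x : ℕ → ℝ) (r : ℕ) : ∀ a, 0 ≤ Qb x r a := by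
  induction r with
  | zero => intro a; exact sq_nonneg _
  | succ r ih =>
      intro a
      have h1 := ih a
      have h2 := ih (a + 2 ^ r)
      have h3 := sq_nonneg (Sb x a (2 ^ (r + 1)))
      simp only [Qb]
      linarith

lemma Qb_top (x : ℕ → ℝ) (r a : ℕ) : Sb x a (2 ^ r) ^ 2 ≤ Qb x r a := by
  cases r with
  | zero => simp only [Qb, pow_zero, le_refl]
  | succ r =>
      have h1 := Qb_nonneg x r a
      have h2 := Qb_nonneg x r (a + 2 ^ r)
      simp only [Qb]
      linarith

lemma Sb_add (x : ℕ → ℝ) (a m n : ℕ) : Sb x a (m + n) = Sb x a m + Sb x (a + m) n := by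
  unfold Sb
  rw [← add_assoc]
  exact (Finset.sum_Ico_consecutive x (by omega) (by omega)).symm

lemma chain (x : ℕ → ℝ) (r : ℕ) : ∀ a k, k ≤ 2 ^ r → Sb x a k ^ 2 ≤ ((r : ℝ) + 1) * Qb x r a := by
  induction r with
  | zero =>
      intro a k hk
      have h0 := Qb_nonneg x 0 a
      rw [pow_zero] at hk
      interval_cases k
      · simp only [Sb, add_zero, Finset.Ico_self, Finset.sum_empty]
        simp only [CharP.cast_eq_zero, zero_add, one_mul]
        linarith [h0, sq_nonneg (0 : ℝ)]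
      · simp only [Qb, CharP.cast_eq_zero, zero_add, one_mul, le_refl]
  | succ r ih =>
      intro a k hk
      have hr : (0 : ℝ) ≤ r := Nat.cast_nonneg r
      have h1 := Qb_nonneg x r a
      have h2 := Qb_nonneg x r (a + 2 ^ r)
      have h3 := sq_nonneg (Sb x a (2 ^ (r + 1)))
      rcases le_total k (2 ^ r) with h | h
      · have h4 := ih a k h
        simp only [Qb]
        push_cast
        nlinarith
      · obtain ⟨m, rfl⟩ := Nat.exists_eq_add_of_le h
        have hm : m ≤ 2 ^ r := by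
          rw [pow_succ] at hk
          omega
        have h4 := ih (a + 2 ^ r) m hm
        have h5 := Qb_top x r a
        rw [Sb_add]
        set u := Sb x a (2 ^ r)
        set v := Sb x (a + 2 ^ r) m
        set t : ℝ := (r : ℝ) + 1 with ht
        have ht0 : 0 < t := by positivity
        have h6 : (u + v) ^ 2 ≤ (t + 1) * (u ^ 2 + v ^ 2 / t) := by
          have h7 : (t + 1) * (u ^ 2 + v ^ 2 / t) - (u + v) ^ 2 = (t * u - v) ^ 2 / t := by
            field_simp
            ring
          have h8 : 0 ≤ (t * u - v) ^ 2 / t := by positivity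
          linarith
        have h7 : v ^ 2 / t ≤ Qb x r (a + 2 ^ r) := by
          rw [div_le_iff₀ ht0]
          linarith
        simp only [Qb]
        push_cast
        calc (u + v) ^ 2 ≤ (t + 1) * (u ^ 2 + v ^ 2 / t) := h6
          _ ≤ (t + 1) * (Sb x a (2 ^ (r + 1)) ^ 2 + (Qb x r a + Qb x r (a + 2 ^ r))) := by
              apply mul_le_mul_of_nonneg_left _ (by linarith)
              linarith
          _ = _ := by rw [ht]

variable {α : Type} [MeasurableSpace α]

lemma Sb_meas {X : ℕ → α → ℝ} (hX : ∀ n, Measurable (X n)) (a n : ℕ) :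
    Measurable (fun t => Sb (fun i => X i t) a n) := by
  unfold Sb
  exact Finset.measurable_fun_sum _ (fun i _ => hX i)

lemma Qb_meas {X : ℕ → α → ℝ} (hX : ∀ n, Measurable (X n)) (r : ℕ) :
    ∀ a, Measurable (fun t => Qb (fun i => X i t) r a) := by
  induction r with
  | zero => intro a; exact (Sb_meas hX a 1).pow_const 2
  | succ r ih =>
      intro a
      exact ((Sb_meas hX a _).pow_const 2).add ((ih a).add (ih _))

lemma Qb_int (μ : Measure α) {X : ℕ → α → ℝ} {C : ℝ} (hC : 0 ≤ C) (hX : ∀ n, Measurable (X n))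
    (h : ∀ a b : ℕ, a ≤ b → ∫⁻ t, ENNReal.ofReal ((∑ n ∈ Finset.Ico a b, X n t) ^ 2) ∂μ ≤
      ENNReal.ofReal (C * ((b : ℝ) - a))) (r : ℕ) :
    ∀ a, ∫⁻ t, ENNReal.ofReal (Qb (fun i => X i t) r a) ∂μ ≤
      ENNReal.ofReal (C * (((r : ℝ) + 1) * 2 ^ r)) := by
  induction r with
  | zero =>
      intro a
      have h1 := h a (a + 1) (by omega)
      simp only [Qb, Sb]
      convert h1 using 2
      push_cast
      ring
  | succ r ih =>
      intro a
      have h1 := h a (a + 2 ^ (r + 1)) (Nat.le_add_right _ _)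
      have e : (((a + 2 ^ (r + 1) : ℕ) : ℝ) - a) = 2 ^ (r + 1) := by push_cast; ring
      rw [e] at h1
      have h2 : ∀ t, ENNReal.ofReal (Qb (fun i => X i t) (r + 1) a) =
          ENNReal.ofReal (Sb (fun i => X i t) a (2 ^ (r + 1)) ^ 2) +
          (ENNReal.ofReal (Qb (fun i => X i t) r a) +
            ENNReal.ofReal (Qb (fun i => X i t) r (a + 2 ^ r))) := by
        intro t
        rw [← ENNReal.ofReal_add (Qb_nonneg _ _ _) (Qb_nonneg _ _ _),
          ← ENNReal.ofReal_add (sq_nonneg _) (add_nonneg (Qb_nonneg _ _ _) (Qb_nonneg _ _ _))]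
        rfl
      rw [lintegral_congr h2, lintegral_add_left (((Sb_meas hX a _).pow_const 2).ennreal_ofReal),
        lintegral_add_left ((Qb_meas hX r a).ennreal_ofReal)]
      have h3 := add_le_add h1 (add_le_add (ih a) (ih (a + 2 ^ r)))
      refine h3.trans ?_
      rw [← ENNReal.ofReal_add (by positivity) (by positivity),
        ← ENNReal.ofReal_add (by positivity) (by positivity)]
      apply ENNReal.ofReal_le_ofReal
      push_cast
      apply le_of_eq
      ring

theorem maxi (μ : Measure α) (X : ℕ → α → ℝ) (C : ℝ) (hC : 0 ≤ C) (hX : ∀ n, Measurable (X n))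
    (h : ∀ a b : ℕ, a ≤ b → ∫⁻ t, ENNReal.ofReal ((∑ n ∈ Finset.Ico a b, X n t) ^ 2) ∂μ ≤
      ENNReal.ofReal (C * ((b : ℝ) - a))) (r : ℕ) :
    ∫⁻ t, (⨆ k ∈ Finset.range (2 ^ r + 1),
      ENNReal.ofReal ((∑ n ∈ Finset.range k, X n t) ^ 2)) ∂μ ≤
    ENNReal.ofReal (C * ((r : ℝ) + 1) ^ 2 * 2 ^ r) := by
  have h1 : ∀ t, (⨆ k ∈ Finset.range (2 ^ r + 1),
      ENNReal.ofReal ((∑ n ∈ Finset.range k, X n t) ^ 2)) ≤
      ENNReal.ofReal ((r : ℝ) + 1) * ENNReal.ofReal (Qb (fun i => X i t) r 0) := by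
    intro t
    refine iSup₂_le (fun k hk => ?_)
    rw [← ENNReal.ofReal_mul (by positivity)]
    apply ENNReal.ofReal_le_ofReal
    have h2 := chain (fun i => X i t) r 0 k (by
      have := Finset.mem_range.1 hk
      omega)
    unfold Sb at h2
    rw [zero_add, ← Finset.range_eq_Ico] at h2
    exact h2
  refine (lintegral_mono h1).trans ?_
  rw [lintegral_const_mul _ ((Qb_meas hX r 0).ennreal_ofReal)]
  refine (mul_le_mul_right (Qb_int μ hC hX h r 0) _).trans ?_
  rw [← ENNReal.ofReal_mul (by positivity)]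
  apply ENNReal.ofReal_le_ofReal
  apply le_of_eq
  ring

end Pool.Agent.Y288.TY
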