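import Mathlib

/-! An abstract `l²` lemma (dyadic shells). -/

set_option autoImplicit false

open Filter Topology Set MeasureTheory

namespace Pool.Agent.Y288.TY

/-- Cauchy-Schwarz with weights -/
lemma cs_weights {ι : Type} (T : Finset ι) (z : ι → ℂ) (w : ι → ℝ) (hw : ∀ i ∈ T, 0 < w i) :
    ‖∑ i ∈ T, z i‖ ^ 2 ≤ (∑ i ∈ T, w i) * ∑ i ∈ T, ‖z i‖ ^ 2 / w i := by
  have h1 : ‖∑ i ∈ T, z i‖ ≤ ∑ i ∈ T, ‖z i‖ := norm_sum_le _ _
  have h2 : ‖∑ i ∈ T, z i‖ ^ 2 ≤ (∑ i ∈ T, ‖z i‖) ^ 2 :=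
    pow_le_pow_left₀ (norm_nonneg _) h1 2
  refine h2.trans ?_
  apply Finset.sum_sq_le_sum_mul_sum_of_sq_le_mul
  · intro i hi
    exact (hw i hi).le
  · intro i hi
    have := hw i hi
    positivity
  · intro i hi
    have := hw i hi
    apply le_of_eq
    field_simp

noncomputable def wv (m : ℕ) : ℝ := (3 / 4) ^ m

noncomputable def vv (m : ℕ) : ℝ := ((m : ℝ) + 2) * (2 / 3) ^ m

lemma wv_pos (m : ℕ) : 0 < wv m := by unfold wv; positivity

lemma vv_pos (m : ℕ) : 0 < vv m := by unfold vv; positivity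

lemma wv_sum : Summable wv := summable_geometric_of_lt_one (by norm_num) (by norm_num)

lemma vv_sum : Summable vv := by
  have h1 : Summable (fun m : ℕ => (m : ℝ) ^ 1 * (2 / 3 : ℝ) ^ m) :=
    summable_pow_mul_geometric_of_norm_lt_one 1 (by norm_num [abs_of_pos])
  have h2 : Summable (fun m : ℕ => 2 * (2 / 3 : ℝ) ^ m) :=
    (summable_geometric_of_lt_one (by norm_num) (by norm_num)).mul_left 2
  refine (h1.add h2).congr (fun m => ?_)
  unfold vv
  ring

/-- sums over shifted indices -/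
lemma shift_sum (v : ℕ → ℝ) (hv : Summable v) (hv0 : ∀ m, 0 ≤ v m) (T : Finset ℕ) (f : ℕ → ℕ)
    (hf : Set.InjOn f T) : ∑ i ∈ T, v (f i) ≤ ∑' m, v m := by
  classical
  rw [← Finset.sum_image (f := v) hf]
  exact hv.sum_le_tsum _ (fun i _ => hv0 i)

theorem varM (d : ℕ) (C : ℝ) (hd : 2 ≤ d) (hC : 0 ≤ C) : ∃ C' : ℝ, 0 ≤ C' ∧
  ∀ l : ℕ → ℕ → ℂ, (∀ n k : ℕ, k < d ^ n → l n k = 0) →
    (∀ n m : ℕ, ∑ k ∈ Finset.Ico (d ^ (n + m)) (d ^ (n + m + 1)), ‖l n k‖ ^ 2 ≤
      C * ((m : ℝ) + 2) / (d : ℝ) ^ m) →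
    ∀ a b K : ℕ, a ≤ b →
      ∑ k ∈ Finset.range K, ‖∑ n ∈ Finset.Ico a b, l n k‖ ^ 2 ≤ C' * ((b : ℝ) - a) := by
  set W := ∑' m, wv m with hW
  set V := ∑' m, vv m with hV
  have hW0 : 0 ≤ W := tsum_nonneg (fun m => (wv_pos m).le)
  have hV0 : 0 ≤ V := tsum_nonneg (fun m => (vv_pos m).le)
  refine ⟨W * C * V, by positivity, ?_⟩
  intro l hl hsh a b K hab
  have hd0 : 0 < d := by omega
  have hd2 : (2 : ℝ) ≤ d := by exact_mod_cast hd
  -- one shell
  have hshell : ∀ j : ℕ, ∑ k ∈ Finset.Ico (d ^ j) (d ^ (j + 1)), ‖∑ n ∈ Finset.Ico a b, l n k‖ ^ 2 ≤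
      W * C * ∑ n ∈ Finset.Ico a b, (if n ≤ j then vv (j - n) else 0) := by
    intro j
    set T := (Finset.Ico a b).filter (fun n => n ≤ j) with hT
    have h1 : ∀ k ∈ Finset.Ico (d ^ j) (d ^ (j + 1)), ‖∑ n ∈ Finset.Ico a b, l n k‖ ^ 2 ≤
        W * ∑ n ∈ T, ‖l n k‖ ^ 2 / wv (j - n) := by
      intro k hk
      rw [Finset.mem_Ico] at hk
      have h2 : ∑ n ∈ Finset.Ico a b, l n k = ∑ n ∈ T, l n k := by
        rw [hT, Finset.sum_filter]
        apply Finset.sum_congr rfl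
        intro n _
        by_cases hn : n ≤ j
        · rw [if_pos hn]
        · rw [if_neg hn]
          apply hl
          refine lt_of_lt_of_le hk.2 (Nat.pow_le_pow_right hd0 (by omega))
      rw [h2]
      refine (cs_weights T (fun n => l n k) (fun n => wv (j - n)) (fun n _ => wv_pos _)).trans ?_
      apply mul_le_mul_of_nonneg_right _ (Finset.sum_nonneg (fun n _ => by
        have := wv_pos (j - n)
        positivity))
      apply shift_sum wv wv_sum (fun m => (wv_pos m).le) T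
      intro x hx y hy hxy
      have hx' := (Finset.mem_filter.1 hx).2
      have hy' := (Finset.mem_filter.1 hy).2
      have hxy' : j - x = j - y := hxy
      omega
    refine (Finset.sum_le_sum h1).trans ?_
    rw [← Finset.mul_sum, Finset.sum_comm, mul_assoc]
    apply mul_le_mul_of_nonneg_left _ hW0
    rw [← Finset.sum_filter, ← hT, Finset.mul_sum]
    apply Finset.sum_le_sum
    intro n hn
    simp only [hT, Finset.mem_filter] at hn
    obtain ⟨m, rfl⟩ := Nat.exists_eq_add_of_le hn.2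
    rw [Nat.add_sub_cancel_left, ← Finset.sum_div, div_le_iff₀ (wv_pos m)]
    refine (hsh n m).trans ?_
    rw [div_le_iff₀ (by positivity)]
    unfold vv wv
    have h3 : (2 : ℝ) ^ m ≤ (d : ℝ) ^ m := pow_le_pow_left₀ (by norm_num) hd2 m
    have h4 : (2 / 3 : ℝ) ^ m * (3 / 4) ^ m * 2 ^ m = 1 := by
      rw [← mul_pow, ← mul_pow]
      norm_num
    calc C * ((m : ℝ) + 2) = C * ((m : ℝ) + 2) * ((2 / 3 : ℝ) ^ m * (3 / 4) ^ m * 2 ^ m) := by
          rw [h4, mul_one]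
      _ ≤ C * ((m : ℝ) + 2) * ((2 / 3 : ℝ) ^ m * (3 / 4) ^ m * (d : ℝ) ^ m) := by gcongr
      _ = _ := by ring
  -- all shells
  have hall : ∀ J : ℕ, ∑ k ∈ Finset.range (d ^ J), ‖∑ n ∈ Finset.Ico a b, l n k‖ ^ 2 ≤
      W * C * ∑ j ∈ Finset.range J, ∑ n ∈ Finset.Ico a b, (if n ≤ j then vv (j - n) else 0) := by
    intro J
    induction J with
    | zero =>
        rw [pow_zero, Finset.sum_range_one, Finset.sum_range_zero, mul_zero]
        have h1 : ∑ n ∈ Finset.Ico a b, l n 0 = 0 :=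
          Finset.sum_eq_zero (fun n _ => hl n 0 (Nat.pow_pos hd0))
        rw [h1, norm_zero]
        norm_num
    | succ J ih =>
        have h1 : d ^ J ≤ d ^ (J + 1) := Nat.pow_le_pow_right hd0 (by omega)
        rw [Finset.sum_range_succ _ J, mul_add]
        rw [Finset.range_eq_Ico, ← Finset.sum_Ico_consecutive _ (Nat.zero_le _) h1,
          ← Finset.range_eq_Ico]
        exact add_le_add ih (hshell J)
  have hK : K ≤ d ^ K := (Nat.lt_pow_self (by omega)).le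
  have h1 : ∑ k ∈ Finset.range K, ‖∑ n ∈ Finset.Ico a b, l n k‖ ^ 2 ≤
      ∑ k ∈ Finset.range (d ^ K), ‖∑ n ∈ Finset.Ico a b, l n k‖ ^ 2 :=
    Finset.sum_le_sum_of_subset_of_nonneg (Finset.range_subset_range.2 hK)
      (fun _ _ _ => by positivity)
  refine h1.trans ((hall K).trans ?_)
  rw [mul_assoc (W * C)]
  apply mul_le_mul_of_nonneg_left _ (by positivity)
  rw [Finset.sum_comm]
  have h2 : ∀ n ∈ Finset.Ico a b, ∑ j ∈ Finset.range K, (if n ≤ j then vv (j - n) else 0) ≤ V := by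
    intro n _
    rw [← Finset.sum_filter]
    apply shift_sum vv vv_sum (fun m => (vv_pos m).le)
    intro x hx y hy hxy
    have hx' := (Finset.mem_filter.1 hx).2
    have hy' := (Finset.mem_filter.1 hy).2
    have hxy' : x - n = y - n := hxy
    omega
  refine (Finset.sum_le_sum h2).trans ?_
  rw [Finset.sum_const, Nat.card_Ico, nsmul_eq_mul, Nat.cast_sub hab, mul_comm]

end Pool.Agent.Y288.TY
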