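import Pool.Agent.Y272.TY.Stm
import Pool.Agent.Y288.TY.MaxM
import Pool.Agent.Y288.TY.VarM

/-! The statements `St_Max`, `St_Var`, `St_Circ`. -/

set_option autoImplicit false

open Complex Filter Topology Metric Set MeasureTheory

namespace Pool.Agent.Y288.TY

open Pool.Agent.H712R2 Pool.Agent.H713R2 Pool.Agent.W677.Mar Pool.Agent.Y272.TY

theorem t_Max : St_Max := fun μ X C hC hX h r => maxi μ X C hC hX h r

theorem t_Var : St_Var := fun d C hd hC => varM d C hd hC

theorem t_Circ (hC : St_Coef) (hV : St_Var) : St_Circ := by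
  intro d hd
  obtain ⟨C, hC0, hC1⟩ := hC d hd
  obtain ⟨C', hC'0, hC'1⟩ := hV d C hd hC0
  refine ⟨2 * Real.pi * C', by positivity, ?_⟩
  intro β L hβ hL a b ρ hab hρ0 hρ1
  have hd0 : 0 < d := by omega
  have hv : ∀ n k : ℕ, k < d ^ n → tc (L n) k = 0 := by
    intro n k hk
    apply hL.van
    have h1 : d ^ n + 1 ≤ d ^ (n + 1) := by
      have h2 : 1 ≤ d ^ n := Nat.one_le_pow _ _ hd0
      rw [pow_succ]
      nlinarith
    omega
  have hs : ∀ n m : ℕ, ∑ k ∈ Finset.Ico (d ^ (n + m)) (d ^ (n + m + 1)), ‖tc (L n) k‖ ^ 2 ≤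
      C * ((m : ℝ) + 2) / (d : ℝ) ^ m := by
    intro n m
    have h1 := hC1 β L hβ hL n m 0 (L n) le_rfl zero_le_one (hL.diff n) (fun x _ => by
      simp)
    simpa using h1
  have hK := hC'1 (fun n k => tc (L n) k) hv hs a b
  have hsum : ∀ z ∈ ball (0 : ℂ) 1, HasSum (fun k => (∑ n ∈ Finset.Ico a b, tc (L n) k) * z ^ k)
      (∑ n ∈ Finset.Ico a b, L n z) := by
    intro z hz
    have h1 := hasSum_sum (s := Finset.Ico a b) (f := fun n k => tc (L n) k * z ^ k)
      (a := fun n => L n z) (fun n _ => hasSum_tc (hL.diff n) hz)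
    simp only [Finset.sum_mul]
    exact h1
  have hm := mean_sq hsum hρ0 hρ1
  have h1 : (2 * Real.pi)⁻¹ * ∫ θ in (0 : ℝ)..(2 * Real.pi),
      ‖∑ n ∈ Finset.Ico a b, L n (pt ρ θ)‖ ^ 2 ≤ C' * ((b : ℝ) - a) := by
    refine hasSum_le_of_sum_le hm (fun s => ?_)
    obtain ⟨K, hsK⟩ := s.exists_nat_subset_range
    refine le_trans ?_ (hK K hab)
    refine le_trans (Finset.sum_le_sum (fun k _ => ?_))
      (Finset.sum_le_sum_of_subset_of_nonneg hsK (fun _ _ _ => by positivity))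
    have h2 : (ρ ^ 2) ^ k ≤ 1 := pow_le_one₀ (by positivity) (by nlinarith)
    exact mul_le_of_le_one_right (by positivity) h2
  have hpi : (0 : ℝ) < 2 * Real.pi := by positivity
  rw [inv_mul_le_iff₀ hpi] at h1
  linarith

end Pool.Agent.Y288.TY
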