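import Pool.Agent.Y272.TY.Stm2

/-! Upper bound for the parameter derivative of the critical orbit. -/

set_option autoImplicit false

open Complex Filter Topology Metric Set MeasureTheory

namespace Pool.Agent.Y288.TY

open Pool.Agent.H712R2 Pool.Agent.H713R2 Pool.Agent.W677.Mar Pool.Agent.Y272.TY

lemma rl_pos (d n : ℕ) : 0 < rl d n := Real.exp_pos _

lemma rl_lt_one {d : ℕ} (hd : 2 ≤ d) (n : ℕ) : rl d n < 1 := by
  unfold rl
  rw [Real.exp_lt_one_iff]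
  have : (0 : ℝ) < (d : ℝ) ^ n := by positivity
  have : 0 < 4 / (d : ℝ) ^ n := by positivity
  linarith

lemma rl_pow {d : ℕ} (hd : 2 ≤ d) (n : ℕ) : rl d n ^ (d ^ n) = Real.exp (-4) := by
  unfold rl
  rw [← Real.exp_nat_mul]
  congr 1
  have : (d : ℝ) ^ n ≠ 0 := by positivity
  push_cast
  field_simp

lemma exp3 : Real.exp (-3) ≤ 1 / 8 := by
  rw [Real.exp_neg, ← one_div]
  apply one_div_le_one_div_of_le (by norm_num)
  have h1 : (2 : ℝ) ≤ Real.exp 1 := by linarith [Real.add_one_le_exp (1 : ℝ)]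
  have h2 : Real.exp 3 = Real.exp 1 ^ 3 := by
    rw [← Real.exp_nat_mul]
    norm_num
  rw [h2]
  calc (8 : ℝ) = 2 ^ 3 := by norm_num
    _ ≤ Real.exp 1 ^ 3 := by gcongr

/-- the bound for the logarithm on the smaller disc -/
lemma L_small {d : ℕ} {β : ℂ → ℂ} {L : ℕ → ℂ → ℂ} (hd : 2 ≤ d) (hL : IsLog d β L) (n : ℕ) {y : ℂ}
    (hy : ‖y‖ ≤ Real.exp (-(3 / (d : ℝ) ^ n))) : ‖L n y‖ ≤ 1 / 5 := by
  have hN : (0 : ℝ) < (d : ℝ) ^ n := by positivity
  have hy1 : ‖y‖ < 1 := by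
    refine lt_of_le_of_lt hy ?_
    rw [Real.exp_lt_one_iff]
    have : 0 < 3 / (d : ℝ) ^ n := by positivity
    linarith
  have h1 : ‖y‖ ^ (d ^ (n + 1) - 1) ≤ 1 / 8 := by
    have h2 : d ^ n ≤ d ^ (n + 1) - 1 := by
      have h3 : 1 ≤ d ^ n := Nat.one_le_pow _ _ (by omega)
      have h4 : d ^ n * 2 ≤ d ^ (n + 1) := by
        rw [pow_succ]
        exact Nat.mul_le_mul_left _ hd
      omega
    calc ‖y‖ ^ (d ^ (n + 1) - 1) ≤ ‖y‖ ^ (d ^ n) :=
          pow_le_pow_of_le_one (norm_nonneg _) hy1.le h2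
      _ ≤ Real.exp (-(3 / (d : ℝ) ^ n)) ^ (d ^ n) := by gcongr
      _ = Real.exp (-3) := by
          rw [← Real.exp_nat_mul]
          congr 1
          push_cast
          field_simp
      _ ≤ 1 / 8 := exp3
  refine (hL.bound n y (mem_ball_zero_iff.2 hy1)).trans ?_
  have h0 : 0 ≤ ‖y‖ ^ (d ^ (n + 1) - 1) := by positivity
  have hlog := Real.log_two_lt_d9
  have hlog0 : 0 < Real.log 2 := Real.log_pos (by norm_num)
  rw [div_le_iff₀ (by linarith)]
  nlinarith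

theorem t_DUp : St_DUp := by
  intro d β L hd hβ hL n x hx
  have hN1 : (1 : ℝ) ≤ (d : ℝ) ^ n := one_le_pow₀ (by exact_mod_cast (by omega : 1 ≤ d))
  have hN : (0 : ℝ) < (d : ℝ) ^ n := by positivity
  have hx0 : x ≠ 0 := by
    intro h
    rw [h, norm_zero] at hx
    exact (rl_pos d n).ne hx
  have hxn : 0 < ‖x‖ := norm_pos_iff.2 hx0
  have hx1 : x ∈ ball (0 : ℂ) 1 := by
    rw [mem_ball_zero_iff, hx]
    exact rl_lt_one hd n
  -- the derivative of the composition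
  have hP : HasDerivAt (P d (n + 1)) (deriv (P d (n + 1)) (cc β x)) (cc β x) :=
    (differentiable_P d (n + 1) _).hasDerivAt
  have hcc : HasDerivAt (cc β) (deriv (cc β) x) x := by
    apply DifferentiableAt.hasDerivAt
    exact (differentiableAt_inv_iff.mpr hx0).mul
      (hβ.diff.differentiableAt (isOpen_ball.mem_nhds hx1))
  have h1 := hP.comp x hcc
  -- the other formula
  have hLd : HasDerivAt (L n) (deriv (L n) x) x :=
    ((hL.diff n).differentiableAt (isOpen_ball.mem_nhds hx1)).hasDerivAt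
  have h2 : HasDerivAt (fun y : ℂ => (y ^ (d ^ n))⁻¹ * Complex.exp (L n y))
      (-((d ^ n : ℕ) * x ^ (d ^ n - 1)) / (x ^ (d ^ n)) ^ 2 * Complex.exp (L n x) +
        (x ^ (d ^ n))⁻¹ * (Complex.exp (L n x) * deriv (L n) x)) x :=
    ((hasDerivAt_pow (d ^ n) x).inv (pow_ne_zero _ hx0)).mul hLd.cexp
  have h3 : (fun y : ℂ => (y ^ (d ^ n))⁻¹ * Complex.exp (L n y)) =ᶠ[𝓝 x]
      (P d (n + 1) ∘ cc β) := by
    filter_upwards [isOpen_ball.mem_nhds hx1, isOpen_ne.mem_nhds hx0] with y hy hy0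
    rw [hL.exp n y hy, BB_eq hd β n y hy0, inv_mul_cancel_left₀ (pow_ne_zero _ hy0)]
    rfl
  have h4 := (h2.congr_of_eventuallyEq h3.symm).unique h1
  rw [← norm_mul, ← h4]
  -- the Cauchy estimate
  have hR : Real.exp (-(4 / (d : ℝ) ^ n)) / (d : ℝ) ^ n ≤
      Real.exp (-(3 / (d : ℝ) ^ n)) - Real.exp (-(4 / (d : ℝ) ^ n)) := by
    have h5 : Real.exp (-(3 / (d : ℝ) ^ n)) =
        Real.exp (-(4 / (d : ℝ) ^ n)) * Real.exp (1 / (d : ℝ) ^ n) := by
      rw [← Real.exp_add]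
      congr 1
      ring
    rw [h5]
    have h6 := Real.add_one_le_exp (1 / (d : ℝ) ^ n)
    have h7 := Real.exp_pos (-(4 / (d : ℝ) ^ n))
    rw [div_eq_mul_one_div]
    nlinarith
  have hxe : ‖x‖ = Real.exp (-(4 / (d : ℝ) ^ n)) := hx
  set R : ℝ := Real.exp (-(3 / (d : ℝ) ^ n)) - Real.exp (-(4 / (d : ℝ) ^ n)) with hRdef
  have hR0 : 0 < R := lt_of_lt_of_le (by positivity) hR
  have hsub : closedBall x R ⊆ ball 0 1 := by
    intro z hz
    rw [mem_closedBall_iff_norm] at hz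
    rw [mem_ball_zero_iff]
    have h8 := norm_add_le (z - x) x
    rw [sub_add_cancel] at h8
    have h9 : Real.exp (-(3 / (d : ℝ) ^ n)) < 1 := by
      rw [Real.exp_lt_one_iff]
      have : 0 < 3 / (d : ℝ) ^ n := by positivity
      linarith
    linarith
  have hC := Complex.norm_deriv_le_of_forall_mem_sphere_norm_le (c := x) (R := R) (C := 1 / 5)
    (f := L n) hR0 ((hL.diff n).diffContOnCl_ball hsub) (by
      intro z hz
      rw [mem_sphere_iff_norm] at hz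
      apply L_small hd hL n
      have h8 := norm_add_le (z - x) x
      rw [sub_add_cancel] at h8
      linarith)
  have hL' : ‖deriv (L n) x‖ ≤ 1 / 5 * (d : ℝ) ^ n / ‖x‖ := by
    refine hC.trans ?_
    rw [div_le_div_iff₀ hR0 hxn, hxe]
    rw [div_le_iff₀ hN] at hR
    nlinarith
  have hLx : ‖L n x‖ ≤ 1 / 5 := by
    apply L_small hd hL n
    rw [hxe]
    apply Real.exp_le_exp.2
    have : 3 / (d : ℝ) ^ n ≤ 4 / (d : ℝ) ^ n := by gcongr; norm_num
    linarith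
  have hexp : ‖Complex.exp (L n x)‖ ≤ 5 / 4 := by
    rw [Complex.norm_exp]
    have h5 : (L n x).re ≤ 1 / 5 := (Complex.re_le_norm _).trans hLx
    have h6 : Real.exp (1 / 5) ≤ 1 / (1 - 1 / 5) := by
      have h7 := Real.add_one_le_exp (-(1 / 5) : ℝ)
      rw [Real.exp_neg] at h7
      have h8 : 0 < Real.exp (1 / 5) := Real.exp_pos _
      rw [le_div_iff₀ (by norm_num)]
      have h9 : Real.exp (1 / 5) * (-(1 / 5) + 1) ≤ Real.exp (1 / 5) * (Real.exp (1 / 5))⁻¹ :=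
        mul_le_mul_of_nonneg_left h7 h8.le
      rw [mul_inv_cancel₀ h8.ne'] at h9
      linarith
    calc Real.exp ((L n x).re) ≤ Real.exp (1 / 5) := Real.exp_le_exp.2 h5
      _ ≤ 1 / (1 - 1 / 5) := h6
      _ = 5 / 4 := by norm_num
  -- the formula
  have hform : -((d ^ n : ℕ) * x ^ (d ^ n - 1)) / (x ^ (d ^ n)) ^ 2 * Complex.exp (L n x) +
        (x ^ (d ^ n))⁻¹ * (Complex.exp (L n x) * deriv (L n) x) =
      (x ^ (d ^ n))⁻¹ * Complex.exp (L n x) * (-((d : ℂ) ^ n) / x + deriv (L n) x) := by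
    have h5 : x ^ (d ^ n) = x ^ (d ^ n - 1) * x := by
      rw [← pow_succ]
      congr 1
      have : 1 ≤ d ^ n := Nat.one_le_pow _ _ (by omega)
      omega
    rw [h5]
    have h6 : x ^ (d ^ n - 1) ≠ 0 := pow_ne_zero _ hx0
    push_cast
    field_simp
  rw [hform, norm_mul, norm_mul, norm_inv, norm_pow, hx, rl_pow hd n]
  have hsum : ‖-((d : ℂ) ^ n) / x + deriv (L n) x‖ ≤ 6 / 5 * (d : ℝ) ^ n / ‖x‖ := by
    refine (norm_add_le _ _).trans ?_
    rw [norm_div, norm_neg, norm_pow, Complex.norm_natCast]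
    calc (d : ℝ) ^ n / ‖x‖ + ‖deriv (L n) x‖ ≤ (d : ℝ) ^ n / ‖x‖ + 1 / 5 * (d : ℝ) ^ n / ‖x‖ := by
          gcongr
      _ = 6 / 5 * (d : ℝ) ^ n / ‖x‖ := by ring
  have he4 : (Real.exp (-4))⁻¹ ≤ 55 := by
    rw [← Real.exp_neg, neg_neg]
    have h5 : Real.exp 4 = Real.exp 1 ^ 4 := by
      rw [← Real.exp_nat_mul]
      norm_num
    rw [h5]
    have h6 := Real.exp_one_lt_d9.le
    have h7 := (Real.exp_pos 1).le
    calc Real.exp 1 ^ 4 ≤ (2.7182818286 : ℝ) ^ 4 := by gcongr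
      _ ≤ 55 := by norm_num
  have hxi : 1 / ‖x‖ ≤ 55 := by
    rw [← Real.exp_neg, neg_neg] at he4
    rw [hxe, one_div, ← Real.exp_neg, neg_neg]
    refine le_trans (Real.exp_le_exp.2 ?_) he4
    rw [div_le_iff₀ hN]
    linarith
  have hpos : 0 < (Real.exp (-4))⁻¹ := by positivity
  calc (Real.exp (-4))⁻¹ * ‖Complex.exp (L n x)‖ * ‖-((d : ℂ) ^ n) / x + deriv (L n) x‖
      ≤ 55 * (5 / 4) * (6 / 5 * (d : ℝ) ^ n / ‖x‖) := by gcongr
    _ = 55 * (5 / 4) * (6 / 5 * (d : ℝ) ^ n) * (1 / ‖x‖) := by ring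
    _ ≤ 55 * (5 / 4) * (6 / 5 * (d : ℝ) ^ n) * 55 := by gcongr
    _ ≤ 10000 * (d : ℝ) ^ n := by nlinarith

end Pool.Agent.Y288.TY
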