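import Pool.Agent.Y288.TY.Dup

/-! Recurrence on the circles. -/

set_option autoImplicit false

open Complex Filter Topology Metric Set MeasureTheory

namespace Pool.Agent.Y288.TY

open Pool.Agent.H712R2 Pool.Agent.H713R2 Pool.Agent.W677.Mar Pool.Agent.Y272.TY

/-- a periodic property which holds almost everywhere on a period -/
lemma ae_periodic {p : ℝ → Prop} (hp : ∀ θ : ℝ, ∀ k : ℤ, p (θ - k * (2 * Real.pi)) → p θ)
    (h : ∀ᵐ θ ∂(volume.restrict (Ioc 0 (2 * Real.pi))), p θ) : ∀ᵐ θ : ℝ, p θ := by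
  rw [ae_restrict_iff' measurableSet_Ioc] at h
  have h1 : ∀ k : ℤ, ∀ᵐ θ : ℝ, θ - k * (2 * Real.pi) ∈ Ioc 0 (2 * Real.pi) →
      p (θ - k * (2 * Real.pi)) := by
    intro k
    exact (measurePreserving_sub_right volume ((k : ℝ) * (2 * Real.pi))).quasiMeasurePreserving.ae h
  rw [← ae_all_iff] at h1
  filter_upwards [h1] with θ hθ
  obtain ⟨k, hk, -⟩ := existsUnique_sub_zsmul_mem_Ioc (a := 2 * Real.pi) (by positivity) θ 0
  rw [zsmul_eq_mul, zero_add] at hk
  exact hp θ k (hθ k hk)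

lemma pt_shift (ρ θ : ℝ) (k : ℤ) : pt ρ (θ - k * (2 * Real.pi)) = pt ρ θ :=
  (pt_periodic ρ).sub_int_mul_eq k

lemma cont_BB {d : ℕ} {β : ℂ → ℂ} (hβ : IsBeta d β) (n : ℕ) {ρ : ℝ} (h0 : 0 ≤ ρ)
    (h1 : ρ < 1) : Continuous (fun θ => ‖BB d β n (pt ρ θ)‖) := by
  have h2 : ContinuousOn (BB d β n) (ball 0 1) := (BB_diff hβ.diff n).continuousOn
  refine (h2.comp_continuous (continuous_pt ρ) (fun θ => ?_)).norm
  rw [mem_ball_zero_iff, norm_pt ρ θ h0]
  exact h1

theorem t_RecC (hLg : St_Log) (hN : St_Neg) : St_RecC := by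
  intro d β hd hβ
  obtain ⟨L, hL⟩ := hLg d β hd hβ
  obtain ⟨κ, C, hκ0, hκ1, hC0, hC⟩ := hN d hd
  have hBpos : ∀ n : ℕ, ∀ x ∈ ball (0 : ℂ) 1, 0 < ‖BB d β n x‖ := by
    intro n x hx
    rw [← hL.exp n x hx, norm_pos_iff]
    exact Complex.exp_ne_zero _
  have hpt : ∀ l θ, pt (rl d l) θ ∈ ball (0 : ℂ) 1 := by
    intro l θ
    rw [mem_ball_zero_iff, norm_pt _ _ (rl_pos d l).le]
    exact rl_lt_one hd l
  set μ : Measure ℝ := volume.restrict (Ioc 0 (2 * Real.pi)) with hμ
  set f : ℕ → ℕ → ℝ → ℝ := fun l n θ => ‖BB d β n (pt (rl d l) θ)‖ with hf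
  have hfpos : ∀ l n θ, 0 < f l n θ := fun l n θ => hBpos n _ (hpt l θ)
  have hfc : ∀ l n, Continuous (f l n) := fun l n => cont_BB hβ n (rl_pos d l).le (rl_lt_one hd l)
  have hfκ : ∀ l n, Continuous (fun θ => f l n θ ^ (-κ)) := fun l n =>
    (hfc l n).rpow_const (fun θ => Or.inl (hfpos l n θ).ne')
  set E : ℕ → ℕ → Set ℝ := fun l n => {θ | ENNReal.ofReal (((l : ℝ) + 2) ^ 3) ≤
    ENNReal.ofReal (f l n θ ^ (-κ))} with hE
  have hEm : ∀ l n, μ (E l n) ≤ ENNReal.ofReal (C / ((l : ℝ) + 2) ^ 3) := by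
    intro l n
    have h1 : μ (E l n) ≤ (∫⁻ θ, ENNReal.ofReal (f l n θ ^ (-κ)) ∂μ) /
        ENNReal.ofReal (((l : ℝ) + 2) ^ 3) := by
      apply meas_ge_le_lintegral_div
      · exact (hfκ l n).measurable.ennreal_ofReal.aemeasurable
      · rw [ne_eq, ENNReal.ofReal_eq_zero, not_le]
        positivity
      · exact ENNReal.ofReal_ne_top
    refine h1.trans ?_
    rw [ENNReal.ofReal_div_of_pos (by positivity)]
    apply ENNReal.div_le_div_right
    rw [← ofReal_integral_eq_lintegral_ofReal]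
    · apply ENNReal.ofReal_le_ofReal
      have h2 := hC β L hβ hL n (rl d l) (rl_pos d l).le (rl_lt_one hd l)
      rw [intervalIntegral.integral_of_le (by positivity)] at h2
      exact h2
    · exact (hfκ l n).integrableOn_Ioc
    · exact Filter.Eventually.of_forall (fun θ => Real.rpow_nonneg (hfpos l n θ).le _)
  have hsum : ∑' l : ℕ, μ (⋃ n ∈ Finset.range (l + 1), E l n) ≠ ⊤ := by
    have hs : Summable (fun l : ℕ => C * (1 / ((l : ℝ) + 2) ^ 2)) := by
      apply Summable.mul_left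
      have h1 : Summable (fun l : ℕ => 1 / (l : ℝ) ^ 2) :=
        Real.summable_one_div_nat_pow.2 one_lt_two
      have h2 := (summable_nat_add_iff 2).2 h1
      refine h2.congr (fun l => ?_)
      push_cast
      rfl
    refine ne_top_of_le_ne_top hs.tsum_ofReal_ne_top (ENNReal.tsum_le_tsum (fun l => ?_))
    refine (measure_biUnion_finset_le _ _).trans ?_
    refine (Finset.sum_le_sum (fun n _ => hEm l n)).trans ?_
    rw [Finset.sum_const, Finset.card_range, nsmul_eq_mul]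
    rw [← ENNReal.ofReal_natCast, ← ENNReal.ofReal_mul (by positivity)]
    apply ENNReal.ofReal_le_ofReal
    push_cast
    have h3 : ((l : ℝ) + 1) * (C / ((l : ℝ) + 2) ^ 3) ≤
        ((l : ℝ) + 2) * (C / ((l : ℝ) + 2) ^ 3) := by
      gcongr
      norm_num
    refine h3.trans (le_of_eq ?_)
    have : (l : ℝ) + 2 ≠ 0 := by positivity
    field_simp
  have hbc := ae_eventually_notMem hsum
  apply ae_periodic (p := fun θ => ∃ A : ℝ, 0 ≤ A ∧ ∀ l n : ℕ, n ≤ l →
    Real.exp (-(A * Real.log (l + 2))) ≤ ‖P d (n + 1) (cc β (pt (rl d l) θ))‖)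
  · rintro θ k ⟨A, hA0, hA⟩
    refine ⟨A, hA0, fun l n hnl => ?_⟩
    have := hA l n hnl
    rwa [pt_shift] at this
  · filter_upwards [hbc] with θ hθ
    obtain ⟨l₀, hl₀⟩ := eventually_atTop.1 hθ
    have hPB : ∀ l n, f l n θ ≤ ‖P d (n + 1) (cc β (pt (rl d l) θ))‖ := by
      intro l n
      have hx0 : pt (rl d l) θ ≠ 0 := by
        rw [← norm_pos_iff, norm_pt _ _ (rl_pos d l).le]
        exact rl_pos d l
      simp only [hf]
      rw [BB_eq hd β n _ hx0, norm_mul, norm_pow, norm_pt _ _ (rl_pos d l).le]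
      apply mul_le_of_le_one_left (norm_nonneg _)
      exact pow_le_one₀ (rl_pos d l).le (rl_lt_one hd l).le
    set A1 : ℝ := ∑ l ∈ Finset.range l₀, ∑ n ∈ Finset.range (l + 1), |Real.log (f l n θ)| /
      Real.log 2 with hA1
    have hlog2 : 0 < Real.log 2 := Real.log_pos (by norm_num)
    have hA10 : 0 ≤ A1 := Finset.sum_nonneg (fun l _ => Finset.sum_nonneg (fun n _ => by
      positivity))
    refine ⟨3 / κ + A1, by positivity, ?_⟩
    intro l n hnl
    refine le_trans ?_ (hPB l n)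
    have hlogl : Real.log 2 ≤ Real.log (l + 2) :=
      Real.log_le_log (by norm_num) (by linarith [Nat.cast_nonneg (α := ℝ) l])
    have hlogl0 : 0 < Real.log ((l : ℝ) + 2) := lt_of_lt_of_le hlog2 hlogl
    rw [← Real.exp_log (hfpos l n θ)]
    apply Real.exp_le_exp.2
    rcases lt_or_ge l l₀ with hl | hl
    · have h1 : |Real.log (f l n θ)| / Real.log 2 ≤ A1 := by
        have h2 : ∑ n ∈ Finset.range (l + 1), |Real.log (f l n θ)| / Real.log 2 ≤ A1 :=
          Finset.single_le_sum (f := fun l => ∑ n ∈ Finset.range (l + 1),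
            |Real.log (f l n θ)| / Real.log 2)
            (fun l _ => Finset.sum_nonneg (fun n _ => by positivity)) (Finset.mem_range.2 hl)
        refine le_trans ?_ h2
        exact Finset.single_le_sum (f := fun n => |Real.log (f l n θ)| / Real.log 2)
          (fun n _ => by positivity) (Finset.mem_range.2 (by omega))
      rw [div_le_iff₀ hlog2] at h1
      have h3 := neg_abs_le (Real.log (f l n θ))
      have h4 : 0 ≤ 3 / κ * Real.log ((l : ℝ) + 2) := by positivity
      have h5 : A1 * Real.log 2 ≤ A1 * Real.log ((l : ℝ) + 2) :=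
        mul_le_mul_of_nonneg_left hlogl hA10
      linarith [add_mul (3 / κ) A1 (Real.log ((l : ℝ) + 2))]
    · have h1 := hl₀ l hl
      simp only [Set.mem_iUnion, not_exists] at h1
      have h2 := h1 n (Finset.mem_range.2 (by omega))
      simp only [hE, Set.mem_ofPred_eq, not_le] at h2
      have h3 : f l n θ ^ (-κ) < ((l : ℝ) + 2) ^ 3 :=
        (ENNReal.ofReal_lt_ofReal_iff (by positivity)).1 h2
      have h4 := Real.log_lt_log (Real.rpow_pos_of_pos (hfpos l n θ) _) h3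
      rw [Real.log_rpow (hfpos l n θ), Real.log_pow] at h4
      push_cast at h4
      have h5 : -(3 / κ * Real.log ((l : ℝ) + 2)) ≤ Real.log (f l n θ) := by
        rw [div_mul_eq_mul_div, ← neg_div, div_le_iff₀ hκ0]
        linarith
      have h6 : 0 ≤ A1 * Real.log ((l : ℝ) + 2) := by positivity
      linarith [add_mul (3 / κ) A1 (Real.log ((l : ℝ) + 2))]

end Pool.Agent.Y288.TY
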